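import Pool.Agent.MWPN.Stmts

/-!
# Block MWPN, row FIN (MP_23468a_al): the result, period `n`
-/

set_option autoImplicit false

namespace Pool.Agent.MWPN.H62F

open Pool.Agent.Helper14_MV Pool.Agent.Helper2_MV Pool.Agent.MWF Pool.Agent.MWP

theorem rep_left (n x : ℕ) : List.replicate (2 * n + 1) x = x :: ip n x := by
  unfold ip
  rw [List.replicate_succ]

theorem rep_right (n x : ℕ) : List.replicate (2 * n + 1) x = ip n x ++ [x] := by
  unfold ip
  rw [List.replicate_succ']

theorem flat_rep (m a x : ℕ) (g : ℕ → List ℕ) (h : g a = [x]) :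
    (List.replicate m a).flatMap g = List.replicate m x := by
  induction m with
  | zero => rfl
  | succ m ih =>
    rw [List.replicate_succ, List.flatMap_cons, ih, h, List.replicate_succ]
    rfl

theorem bet1 {n : ℕ} {β : FIC} (hB : BtN n β) (x : ℕ) (A : List ℕ) :
    RR β (x :: (A ++ [x])) (List.replicate (n + 1) x ++ A ++ List.replicate (n + 1) x) := by
  have h := hB.bet.sub (fun c => if c = 0 then [x] else A)
  have f := flat_rep (n + 1) 0 x (fun c => if c = 0 then [x] else A) (by simp)
  simp only [List.flatMap_append, List.flatMap_cons, List.flatMap_nil, f] at h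
  simpa using h

theorem bet2 {n : ℕ} {β : FIC} (hB : BtN n β) (x : ℕ) (A : List ℕ) :
    RR β (x :: (A ++ [x]))
      (List.replicate (2 * n + 1) x ++ A ++ List.replicate (2 * n + 1) x) := by
  have h1 := bet1 hB x A
  have h2 := ((RR.refl (β := β) (List.replicate n x)).append h1).append
    (RR.refl (β := β) (List.replicate n x))
  have e1 : List.replicate n x ++ x :: (A ++ [x]) ++ List.replicate n x =
      List.replicate (n + 1) x ++ A ++ List.replicate (n + 1) x := by
    have e : List.replicate (n + 1) x = List.replicate n x ++ [x] := List.replicate_succ'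
    have e' : List.replicate (n + 1) x = x :: List.replicate n x := List.replicate_succ
    calc List.replicate n x ++ x :: (A ++ [x]) ++ List.replicate n x
        = (List.replicate n x ++ [x]) ++ A ++ (x :: List.replicate n x) := by simp
      _ = _ := by rw [← e, ← e']
  have e2 : List.replicate n x ++ (List.replicate (n + 1) x ++ A ++ List.replicate (n + 1) x) ++
      List.replicate n x =
      List.replicate (2 * n + 1) x ++ A ++ List.replicate (2 * n + 1) x := by
    have e : List.replicate (2 * n + 1) x = List.replicate n x ++ List.replicate (n + 1) x := by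
      rw [List.replicate_append_replicate]
      congr 1
      ring
    have e' : List.replicate (2 * n + 1) x = List.replicate (n + 1) x ++ List.replicate n x := by
      rw [List.replicate_append_replicate]
      congr 1
      ring
    calc List.replicate n x ++ (List.replicate (n + 1) x ++ A ++ List.replicate (n + 1) x) ++
          List.replicate n x
        = (List.replicate n x ++ List.replicate (n + 1) x) ++ A ++
          (List.replicate (n + 1) x ++ List.replicate n x) := by simp only [List.append_assoc]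
      _ = _ := by rw [← e, ← e']
  rw [e1, e2] at h2
  exact β.trans h1 h2

theorem sub_map (g : ℕ → List ℕ) (hg : ∀ c, 3 ≤ c → g c = [c]) (v : List ℕ) :
    (v.map (fun c => c + 3)).flatMap g = v.map (fun c => c + 3) := by
  induction v with
  | nil => rfl
  | cons a v ih =>
    rw [List.map_cons, List.flatMap_cons, ih, hg _ (by omega)]
    rfl

/-- the two words at the end -/
def UU (n : ℕ) : List ℕ := [0] ++ (ip n 0 ++ ip n 1 ++ ip n 0) ++ [1]

/-- the two words at the end -/
def WW (n : ℕ) : List ℕ := [1] ++ (ip n 0 ++ ip n 1 ++ ip n 0) ++ [0]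

theorem mem_ip {n c a : ℕ} (h : c ∈ ip n a) : c = a := List.eq_of_mem_replicate h

theorem ip_mem {n : ℕ} (hn : 1 ≤ n) (a : ℕ) : a ∈ ip n a := by
  unfold ip
  rw [List.mem_replicate]
  exact ⟨by omega, rfl⟩

theorem mem_UU {n : ℕ} (c : ℕ) : c ∈ UU n ↔ c = 0 ∨ c = 1 := by
  unfold UU
  constructor
  · intro h
    simp only [List.mem_append, List.mem_singleton] at h
    rcases h with (h | ((h | h) | h)) | h
    · exact Or.inl h
    · exact Or.inl (mem_ip h)
    · exact Or.inr (mem_ip h)
    · exact Or.inl (mem_ip h)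
    · exact Or.inr h
  · intro h
    simp only [List.mem_append, List.mem_singleton]
    tauto

theorem mem_WW {n : ℕ} (c : ℕ) : c ∈ WW n ↔ c = 0 ∨ c = 1 := by
  unfold WW
  constructor
  · intro h
    simp only [List.mem_append, List.mem_singleton] at h
    rcases h with (h | ((h | h) | h)) | h
    · exact Or.inr h
    · exact Or.inl (mem_ip h)
    · exact Or.inr (mem_ip h)
    · exact Or.inl (mem_ip h)
    · exact Or.inl h
  · intro h
    simp only [List.mem_append, List.mem_singleton]
    tauto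

theorem pair_UU {n : ℕ} (hn : 1 ≤ n) (a b : ℕ) (ha : a = 0 ∨ a = 1) (hb : b = 0 ∨ b = 1) :
    [a, b].Sublist (UU n) := by
  have h0 := ip_mem hn 0
  have h1 := ip_mem hn 1
  unfold UU
  simp only [pair_append, List.mem_append, List.mem_singleton]
  rcases ha with rfl | rfl <;> rcases hb with rfl | rfl
  · exact Or.inl (Or.inr (Or.inl ⟨rfl, Or.inr h0⟩))
  · exact Or.inr (Or.inl ⟨Or.inl rfl, rfl⟩)
  · exact Or.inl (Or.inr (Or.inr (Or.inr (Or.inl ⟨Or.inr h1, h0⟩))))
  · exact Or.inr (Or.inl ⟨Or.inr (Or.inl (Or.inr h1)), rfl⟩)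

theorem pair_WW {n : ℕ} (hn : 1 ≤ n) (a b : ℕ) (ha : a = 0 ∨ a = 1) (hb : b = 0 ∨ b = 1) :
    [a, b].Sublist (WW n) := by
  have h0 := ip_mem hn 0
  have h1 := ip_mem hn 1
  unfold WW
  simp only [pair_append, List.mem_append, List.mem_singleton]
  rcases ha with rfl | rfl <;> rcases hb with rfl | rfl
  · exact Or.inr (Or.inl ⟨Or.inr (Or.inr h0), rfl⟩)
  · exact Or.inl (Or.inr (Or.inr (Or.inl (Or.inr (Or.inl ⟨h0, h1⟩)))))
  · exact Or.inr (Or.inl ⟨Or.inl rfl, rfl⟩)
  · exact Or.inl (Or.inr (Or.inl ⟨rfl, Or.inl (Or.inr h1)⟩))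

theorem count_UU (n a : ℕ) : (UU n).count a = (WW n).count a := by
  unfold UU WW
  simp only [List.count_append]
  omega

theorem uw {n : ℕ} {β : FIC} (hB : BtN n β) : RR β (UU n) (WW n) := by
  have hn := hB.pos
  apply hB.loc
  · intro c hc
    have h := (mem_UU c).1 hc
    exact pair_UU hn c c h h
  · intro c hc
    have h := (mem_WW c).1 hc
    exact pair_WW hn c c h h
  · intro a
    rw [mem_UU, mem_WW]
  · intro a
    rw [count_UU]
  · intro a b _
    constructor
    · intro h
      exact pair_WW hn a b ((mem_UU a).1 (pair_mem h).1) ((mem_UU b).1 (pair_mem h).2)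
    · intro h
      exact pair_UU hn a b ((mem_WW a).1 (pair_mem h).1) ((mem_WW b).1 (pair_mem h).2)

theorem fin (hPen : PenStmt) (hEnl : EnlStmt) : FinStmt := by
  intro n β hB hM v hv
  obtain ⟨v', h, hv', hh, h2, hPQ⟩ := hEnl v hv
  obtain ⟨hP', hQ'⟩ := hPen n β hB hM v' h hv' hh h2
  have hP : PV n β v := (hPQ n β).1 hP'
  have hQ : QV n β v := (hPQ n β).2 hQ'
  unfold DV
  unfold PV at hP
  unfold QV at hQ
  obtain ⟨V, hV⟩ : ∃ V : List ℕ, V = v.map (fun c => c + 3) := ⟨_, rfl⟩
  have hVs : ∀ g : ℕ → List ℕ, (∀ c, 3 ≤ c → g c = [c]) → V.flatMap g = V := by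
    intro g hg
    rw [hV]
    exact sub_map g hg v
  rw [← hV] at hP hQ ⊢
  -- the left side
  have hL : RR β (0 :: (V ++ [1, 2, 0, 1]))
      (0 :: (ip n 0 ++ V ++ ip n 1 ++ [1, 2] ++ UU n)) := by
    have h1 := (bet2 hB 0 (V ++ [1, 2])).append (RR.refl (β := β) [1])
    have h2 := (RR.refl (β := β) (List.replicate (2 * n + 1) 0 ++ V)).append
      (bet2 hB 1 (2 :: List.replicate (2 * n + 1) 0))
    have e1 : 0 :: (V ++ [1, 2] ++ [0]) ++ [1] = 0 :: (V ++ [1, 2, 0, 1]) := by simp
    have e2 : List.replicate (2 * n + 1) 0 ++ (V ++ [1, 2]) ++ List.replicate (2 * n + 1) 0 ++ [1] =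
        List.replicate (2 * n + 1) 0 ++ V ++
          (1 :: (2 :: List.replicate (2 * n + 1) 0 ++ [1])) := by simp
    rw [e1, e2] at h1
    have h3 := β.trans h1 h2
    have h4 := hP.sub (fun c => if c = 2 then [1, 2, 0] else [c])
    have h5 := ((RR.refl (β := β) [0]).append h4).append (RR.refl (β := β) [1])
    have f0 : (ip n 0).flatMap (fun c => if c = 2 then [1, 2, 0] else [c]) = ip n 0 :=
      flat_rep _ _ _ _ (by simp)
    have f1 : (ip n 1).flatMap (fun c => if c = 2 then [1, 2, 0] else [c]) = ip n 1 :=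
      flat_rep _ _ _ _ (by simp)
    have fV : V.flatMap (fun c => if c = 2 then [1, 2, 0] else [c]) = V := by
      apply hVs
      intro c hc
      rw [if_neg (by omega)]
    simp only [List.flatMap_append, List.flatMap_cons, f0, f1, fV, if_true] at h5
    have e3 : List.replicate (2 * n + 1) 0 ++ V ++
        (List.replicate (2 * n + 1) 1 ++ 2 :: List.replicate (2 * n + 1) 0 ++
          List.replicate (2 * n + 1) 1) =
        [0] ++ (ip n 0 ++ V ++ ip n 1 ++ ([1, 2, 0] ++ (ip n 0 ++ ip n 1))) ++ [1] := by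
      rw [rep_left n 0, rep_right n 1]
      simp
    rw [e3] at h3
    have h6 := β.trans h3 h5
    have e4 : [0] ++ (ip n 0 ++ V ++ ip n 1 ++ ([1, 2, 0] ++ (ip n 0 ++ ip n 1 ++ ip n 0))) ++ [1] =
        0 :: (ip n 0 ++ V ++ ip n 1 ++ [1, 2] ++ UU n) := by
      unfold UU
      simp
    rw [e4] at h6
    exact h6
  -- the right side
  have hR : RR β (0 :: (V ++ [1, 2, 1, 0]))
      (0 :: (ip n 0 ++ V ++ ip n 1 ++ [1, 2] ++ WW n)) := by
    have h1 := bet2 hB 0 (V ++ [1, 2, 1])
    have h2 := ((RR.refl (β := β) (List.replicate (2 * n + 1) 0 ++ V)).append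
      (bet2 hB 1 [2])).append (RR.refl (β := β) (List.replicate (2 * n + 1) 0))
    have e1 : 0 :: (V ++ [1, 2, 1] ++ [0]) = 0 :: (V ++ [1, 2, 1, 0]) := by simp
    have e2 : List.replicate (2 * n + 1) 0 ++ (V ++ [1, 2, 1]) ++ List.replicate (2 * n + 1) 0 =
        List.replicate (2 * n + 1) 0 ++ V ++ (1 :: ([2] ++ [1])) ++
          List.replicate (2 * n + 1) 0 := by simp
    rw [e1, e2] at h1
    have h3 := β.trans h1 h2
    have h4 := hQ.sub (fun c => if c = 2 then [1, 2, 1] else [c])
    have h5 := ((RR.refl (β := β) [0]).append h4).append (RR.refl (β := β) [0])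
    have f0 : (ip n 0).flatMap (fun c => if c = 2 then [1, 2, 1] else [c]) = ip n 0 :=
      flat_rep _ _ _ _ (by simp)
    have f1 : (ip n 1).flatMap (fun c => if c = 2 then [1, 2, 1] else [c]) = ip n 1 :=
      flat_rep _ _ _ _ (by simp)
    have fV : V.flatMap (fun c => if c = 2 then [1, 2, 1] else [c]) = V := by
      apply hVs
      intro c hc
      rw [if_neg (by omega)]
    simp only [List.flatMap_append, List.flatMap_cons, f0, f1, fV, if_true] at h5
    have e3 : List.replicate (2 * n + 1) 0 ++ V ++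
        (List.replicate (2 * n + 1) 1 ++ [2] ++ List.replicate (2 * n + 1) 1) ++
          List.replicate (2 * n + 1) 0 =
        [0] ++ (ip n 0 ++ V ++ ip n 1 ++ ([1, 2, 1] ++ (ip n 1 ++ ip n 0))) ++ [0] := by
      have q0 : List.replicate (2 * n + 1) 0 ++ V ++
          (List.replicate (2 * n + 1) 1 ++ [2] ++ List.replicate (2 * n + 1) 1) ++
            List.replicate (2 * n + 1) 0 =
          (0 :: ip n 0) ++ V ++ ((ip n 1 ++ [1]) ++ [2] ++ (1 :: ip n 1)) ++ (ip n 0 ++ [0]) := by
        rw [← rep_left n 0, ← rep_right n 1, ← rep_left n 1, ← rep_right n 0]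
      rw [q0]
      simp
    rw [e3] at h3
    have h6 := β.trans h3 h5
    have e4 : [0] ++ (ip n 0 ++ V ++ ip n 1 ++ ([1, 2, 1] ++ (ip n 0 ++ ip n 1 ++ ip n 0))) ++ [0] =
        0 :: (ip n 0 ++ V ++ ip n 1 ++ [1, 2] ++ WW n) := by
      unfold WW
      simp
    rw [e4] at h6
    exact h6
  have hU : RR β (0 :: (ip n 0 ++ V ++ ip n 1 ++ [1, 2] ++ UU n))
      (0 :: (ip n 0 ++ V ++ ip n 1 ++ [1, 2] ++ WW n)) :=
    (RR.refl (β := β) (0 :: (ip n 0 ++ V ++ ip n 1 ++ [1, 2]))).append (uw hB)
  exact β.trans hL (β.trans hU (RR.symm hR))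

end Pool.Agent.MWPN.H62F
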